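import Mathlib

namespace Pool.Agent.Results.MP_26d357_co.Exact

open Finset Classical

def KTree (k : ℕ) {n : ℕ} (G : SimpleGraph (Fin n)) : Prop :=
  k < n ∧ ∀ i : Fin n,
    G.IsClique {j | j < i ∧ G.Adj j i} ∧ {j | j < i ∧ G.Adj j i}.ncard = min i.1 k

variable {k n : ℕ} {G : SimpleGraph (Fin n)}

noncomputable def nb (G : SimpleGraph (Fin n)) (m : ℕ) (v : Fin n) : Finset (Fin n) :=
  {w | w.1 < m ∧ G.Adj w v}

theorem mem {m : ℕ} {v w : Fin n} : w ∈ nb G m v ↔ w.1 < m ∧ G.Adj w v := by simp [nb]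

theorem own (h : KTree k G) (i : Fin n) : G.IsClique (nb G i i) ∧ #(nb G i i) = min i.1 k := by
  have e : (nb G i i : Set (Fin n)) = {j | j < i ∧ G.Adj j i} := Set.ext fun _ => mem
  rw [← Set.ncard_coe_finset, e]
  exact h.2 i

theorem om (h : KTree k G) {Q : Finset (Fin n)} (hQ : G.IsClique Q) : #Q ≤ k + 1 := by
  rcases Q.eq_empty_or_nonempty with rfl | hn
  · simp
  have := card_le_card (s := Q.erase (Q.max' hn)) (t := nb G (Q.max' hn) (Q.max' hn)) fun v hv =>
    mem.2 ⟨(Q.le_max' v (mem_of_mem_erase hv)).lt_of_ne (ne_of_mem_erase hv),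
      hQ (mem_of_mem_erase hv) (Q.max'_mem hn) (ne_of_mem_erase hv)⟩
  rw [card_erase_of_mem (Q.max'_mem hn), (own h _).2] at this
  omega

theorem low (h : KTree k G) {i j : Fin n} (hi : i.1 ≤ k) (hj : j < i) : G.Adj j i := by
  have : nb G i i = Iio i := eq_of_subset_of_card_le (fun v hv => mem_Iio.2 (mem.1 hv).1)
    (by rw [(own h i).2, Fin.card_Iio]; omega)
  exact (mem.1 (this ▸ mem_Iio.2 hj)).2

theorem mind (h : KTree k G) {m : ℕ} {v : Fin n} (hm : k < m) (hv : v.1 < m) : k ≤ #(nb G m v) := by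
  by_cases hk : k ≤ v.1
  · refine le_trans (by rw [(own h v).2]; omega) (card_le_card (s := nb G v v) fun w hw => ?_)
    exact mem.2 ⟨(mem.1 hw).1.trans hv, (mem.1 hw).2⟩
  obtain ⟨x, rfl⟩ : ∃ x : Fin n, x.1 = k := ⟨⟨k, h.1⟩, rfl⟩
  refine le_trans ?_ (card_le_card (s := (Iic x).erase v) fun w hw => ?_)
  · rw [card_erase_of_mem (mem_Iic.2 (Fin.le_def.2 (not_le.1 hk).le)), Fin.card_Iic]
    rfl
  have h1 : w.1 ≤ x.1 := Fin.le_def.1 (mem_Iic.1 (mem_of_mem_erase hw))
  refine mem.2 ⟨by omega, ?_⟩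
  rcases (ne_of_mem_erase hw).lt_or_gt with l | l
  · exact low h (by omega) l
  · exact (low h h1 l).symm

theorem mono (m : ℕ) (v : Fin n) : #(nb G m v) ≤ #(nb G (m + 1) v) :=
  card_le_card fun _ hw => mem.2 ⟨(mem.1 hw).1.trans (lt_add_one m), (mem.1 hw).2⟩

theorem stp {x v : Fin n} (a : G.Adj x v) : #(nb G x v) < #(nb G (x + 1) v) :=
  card_lt_card ⟨fun _ hw => mem.2 ⟨(mem.1 hw).1.trans (lt_add_one _), (mem.1 hw).2⟩,
    fun s => lt_irrefl _ (mem.1 (s (mem.2 ⟨lt_add_one _, a⟩))).1⟩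

theorem univ' {x v w : Fin n} (hv : v < x) (hw : w < x) (ne : w ≠ v)
    (hd : x.1 ≤ #(nb G x v) + 1) : G.Adj w v := by
  have : nb G x v = (Iio x).erase v := eq_of_subset_of_card_le
    (fun u hu => mem_erase.2 ⟨(mem.1 hu).2.ne, mem_Iio.2 (mem.1 hu).1⟩)
    (by rw [card_erase_of_mem (mem_Iio.2 hv), Fin.card_Iio]; omega)
  exact (mem.1 (this ▸ mem_erase.2 ⟨ne, mem_Iio.2 hw⟩)).2

theorem main (h : KTree k G) (m : ℕ) (hm : m ≤ n) (j : ℕ) (hj : k + 1 + j ≤ m)
    (Q : Finset (Fin n)) (hQ : G.IsClique Q) (hd : ∀ v ∈ Q, v.1 < m ∧ #(nb G m v) < k + j) :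
    #Q ≤ j := by
  induction m generalizing j Q with
  | zero => omega
  | succ m ih =>
  rcases j with _ | j
  · exact (card_eq_zero.2 (eq_empty_of_forall_notMem fun v hv =>
      (hd v hv).2.not_ge (mind h (by omega) (hd v hv).1))).le
  obtain ⟨x, rfl⟩ : ∃ x : Fin n, x.1 = m := ⟨⟨m, hm⟩, rfl⟩
  by_cases hx : x ∈ Q
  · have := ih (by omega) j (by omega) (Q.erase x) (hQ.subset (erase_subset _ _)) fun v hv => by
      have h1 := hd v (mem_of_mem_erase hv)
      have h2 := stp (hQ hx (mem_of_mem_erase hv) (ne_of_mem_erase hv).symm)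
      have h3 := Fin.val_ne_of_ne (ne_of_mem_erase hv)
      omega
    rw [card_erase_of_mem hx] at this
    omega
  have lt (v) (hv : v ∈ Q) : v.1 < x.1 := by
    have h1 := (hd v hv).1
    have h3 := Fin.val_ne_of_ne (ne_of_mem_of_not_mem hv hx)
    omega
  by_cases hl : k + 1 + (j + 1) ≤ x.1
  · exact ih (by omega) _ hl Q hQ fun v hv => ⟨lt v hv, (mono _ _).trans_lt (hd v hv).2⟩
  have h1 := ih (by omega) j (by omega) (Q.filter fun v => #(nb G x v) < k + j)
    (hQ.subset (filter_subset _ _)) fun v hv => ⟨lt v (mem_filter.1 hv).1, (mem_filter.1 hv).2⟩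
  have h2 := card_filter_add_card_filter_not (s := Q) fun v => #(nb G x v) < k + j
  have h3 := om h (Q := (Q.filter fun v => ¬ #(nb G x v) < k + j) ∪ nb G x x) <| by
    have u (v) (hv : v ∈ Q.filter fun v => ¬ #(nb G x v) < k + j) (w)
        (hw : w ∈ (Q.filter fun v => ¬ #(nb G x v) < k + j) ∪ nb G x x) (ne : w ≠ v) : G.Adj w v :=
      univ' (lt v (mem_filter.1 hv).1) ((mem_union.1 hw).elim (fun e => lt w (mem_filter.1 e).1)
        fun e => (mem.1 e).1) ne (by have := (mem_filter.1 hv).2; omega)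
    intro v hv w hw ne
    rcases mem_union.1 hv with a | a
    · exact (u v a w hw ne.symm).symm
    rcases mem_union.1 hw with b | b
    · exact u w b v hv ne
    · exact (own h x).1 a b ne
  rw [card_union_of_disjoint (disjoint_left.2 fun v a b => ?_), (own h x).2] at h3
  · omega
  have := stp (mem.1 b).2.symm
  have := (hd v (mem_filter.1 a).1).2
  have := (mem_filter.1 a).2
  omega

theorem greedy {t : ℕ} (S : Set (Fin n)) (hS : ∀ x ∈ S, #((nb G x x).filter (· ∈ S)) ≤ t) (m : ℕ) :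
    ∃ c : Fin n → Fin (t + 1), ∀ u ∈ S, ∀ v ∈ S, u < v → v.1 < m → G.Adj u v → c u ≠ c v := by
  induction m with
  | zero => exact ⟨0, by simp⟩
  | succ m ih =>
  obtain ⟨c, hc⟩ := ih
  by_cases hx : ∃ x ∈ S, x.1 = m
  · obtain ⟨x, hx, rfl⟩ := hx
    obtain ⟨a, -, ha⟩ := exists_mem_notMem_of_card_lt_card (t := univ)
      (s := ((nb G x x).filter (· ∈ S)).image c) (card_image_le.trans_lt (by simpa using Nat.lt_succ_of_le (hS x hx)))
    refine ⟨Function.update c x a, fun u hu v hv l hl e => ?_⟩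
    rw [Function.update_of_ne (by rintro rfl; omega)]
    by_cases hv' : v = x
    · subst hv'
      rw [Function.update_self]
      rintro rfl
      exact ha (mem_image_of_mem _ (mem_filter.2 ⟨mem.2 ⟨l, e⟩, hu⟩))
    · rw [Function.update_of_ne hv']
      exact hc u hu v hv l (by have := Fin.val_ne_of_ne hv'; omega) e
  · exact ⟨c, fun u hu v hv l hl => hc u hu v hv l (by have := mt (⟨v, hv, ·⟩) hx; omega)⟩

theorem upper {t : ℕ} (h : KTree k G) (hn : k + t + 2 ≤ n) :
    (G.induce {v | (G.neighborSet v).ncard = k + t}).chromaticNumber ≤ (t + 1 : ℕ) := by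
  obtain ⟨c, hc⟩ := greedy (G := G) (t := t) {v | (G.neighborSet v).ncard = k + t} (fun x hx => by
    have := main h n le_rfl (t + 1) (by omega) (insert x ((nb G x x).filter
      (· ∈ {v | (G.neighborSet v).ncard = k + t}))) ?_ fun v hv => ⟨v.2, ?_⟩
    · rw [card_insert_of_notMem fun e => lt_irrefl _ (mem.1 (mem_filter.1 e).1).1] at this
      convert Nat.le_of_succ_le_succ this
    · rw [coe_insert]
      exact ((own h x).1.subset (filter_subset _ _)).insert fun v hv _ =>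
        (mem.1 (mem_filter.1 hv).1).2.symm
    have e : (nb G n v : Set (Fin n)) = G.neighborSet v := Set.ext fun w => by
      simp [mem, G.adj_comm]
    have : (G.neighborSet v).ncard = k + t := (mem_insert.1 hv).elim (· ▸ hx) (mem_filter.1 ·|>.2)
    rw [← Set.ncard_coe_finset, e]
    omega) n
  refine SimpleGraph.Colorable.chromaticNumber_le ⟨SimpleGraph.Coloring.mk (fun v => c v) ?_⟩
  intro u v e
  rcases (Subtype.coe_ne_coe.2 e.ne).lt_or_gt with l | l
  · exact hc _ u.2 _ v.2 l v.1.2 e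
  · exact (hc _ v.2 _ u.2 l u.1.2 e.symm).symm

def ex (t : ℕ) : SimpleGraph (Fin (2 * t + 3)) where
  Adj u v := u.1 ≠ v.1 ∧ min u.1 v.1 ≤ t + 1 ∧ u.1 + (t + 2) ≠ v.1 ∧ v.1 + (t + 2) ≠ u.1
  symm := ⟨fun _ _ h => by omega⟩
  loopless := ⟨fun _ h => h.1 rfl⟩

theorem result (t : ℕ) : IsGreatest {c | ∃ k ≥ 1, ∃ n ≥ k + t + 2, ∃ G : SimpleGraph (Fin n),
    KTree k G ∧ c = (G.induce {v | (G.neighborSet v).ncard = k + t}).chromaticNumber}
    (t + 1 : ℕ) := by
  have hk : KTree (t + 1) (ex t) := ⟨by omega, fun i => ⟨fun u hu v hv ne => ?_, ?_⟩⟩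
  · refine ⟨⟨t + 1, by omega, _, by omega, ex t, hk, le_antisymm ?_ (upper hk (by omega))⟩, ?_⟩
    · refine SimpleGraph.le_chromaticNumber_of_pairwise_adj (ι := Fin (t + 1)) (by simp)
        (fun i => ⟨⟨i, by omega⟩, ?_⟩) fun i j ne => ?_
      · have e : (ex t).neighborSet ⟨i, by omega⟩ =
            (((univ : Finset (Fin (2 * t + 3))).erase ⟨i, by omega⟩).erase ⟨i + (t + 2), by omega⟩ :
              Finset _) := by
          ext w
          simp only [ex, SimpleGraph.mem_neighborSet, mem_coe, mem_erase, ne_eq, Fin.ext_iff,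
            mem_univ, and_true]
          omega
        rw [Set.mem_ofPred_eq, e, Set.ncard_coe_finset, card_erase_of_mem (by simp),
          card_erase_of_mem (mem_univ _), card_fin]
        omega
      · have := Fin.val_ne_of_ne ne
        simp only [ex, SimpleGraph.comap_adj, Function.Embedding.subtype_apply]
        omega
    · rintro _ ⟨k, -, n, hn, G, h, rfl⟩
      exact upper h hn
  · have := Fin.val_ne_of_ne ne
    simp only [ex, Set.mem_ofPred_eq, Fin.lt_def] at hu hv ⊢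
    omega
  by_cases hi : i.1 ≤ t + 1
  · have e : {j | j < i ∧ (ex t).Adj j i} = (Iio i : Finset _) := by
      ext w
      simp only [ex, Set.mem_ofPred_eq, mem_coe, mem_Iio, Fin.lt_def]
      omega
    rw [e, Set.ncard_coe_finset, Fin.card_Iio]
    omega
  · have e : {j | j < i ∧ (ex t).Adj j i} =
        ((Iio (⟨t + 2, by omega⟩ : Fin (2 * t + 3))).erase ⟨i - (t + 2), by omega⟩ : Finset _) := by
      ext w
      simp only [ex, Set.mem_ofPred_eq, mem_coe, mem_Iio, Fin.lt_def, mem_erase, ne_eq, Fin.ext_iff]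
      omega
    rw [e, Set.ncard_coe_finset, card_erase_of_mem (by simp [Fin.lt_def]; omega), Fin.card_Iio]
    simp only
    omega

end Pool.Agent.Results.MP_26d357_co.Exact
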